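import Pool.Agent.Lib.MP_51ebd4_co.Families

/-!
# Hähnle's bound for connected layer multicomplexes without gaps

A connected layer multicomplex of rank `d` on `[n]` has gaps at most `g` if any two facets `X`, `Y`
with `|X ∖ Y| > g` have a facet strictly between them. Then its length `k` satisfies
`g k ≤ 2^(g-1) d (n-1)`; so Hähnle's bound `k ≤ d (n-1)` holds if the gaps are at most two.

The gaps are at most two if the facets satisfy the exchange property of the bases of a discrete
polymatroid, or form a strongly stable set, or are the multisets of weight at most `B` for some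
weights. They are at most `g` if the multisets of size `d` which are not facets contain no path with
`g` vertices, for example if there are fewer than `g` of them.

Proof. The link of `X ∩ Y`, in the layers between those of `X` and `Y`, is a connected layer
multicomplex of rank `D = |X ∖ Y|`; hence these layers are at most `2^(D-1) (n-1)` apart (induction
on the rank and, for fixed rank, on the number of layers: take the element of the first layer which
is active for the longest time). Divide `X`, `Y` by facets between them into steps at most `g`.
-/

set_option autoImplicit false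

namespace Pool.Agent.Results.MP_51ebd4_co.BoundedGaps

open Pool.Agent.Lib.MP_51ebd4_co

/-- Let `L 0, …, L k` be the layers of a connected layer multicomplex of rank `d` on `[n]`. For each
chain of facets from `L 0` to `L k` with steps `s_i` (`|Z_i ∖ Z_(i+1)|`), `k` is at most
`(n-1) ∑ 2^(s_i-1)`, so at most `n-1` times the length of the chain if its steps are one or two. If the gaps
are at most `g`, then `g k ≤ 2^(g-1) d (n-1)`. The gaps are at most `g` if the non-facets of size `d`
contain no path with `g` vertices; they are at most two if the facets are the bases of a discrete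
polymatroid, are strongly stable, or are given by a threshold; so then `k ≤ d (n-1)`. -/
theorem result (n d k : ℕ) (L : ℕ → Finset (Multiset (Fin n))) (h : IsCLM n d k L) :
    (∀ (q : ℕ) (Z : ℕ → Multiset (Fin n)), (∀ i, i ≤ q → Facet k L (Z i)) → Z 0 ∈ L 0 → Z q ∈ L k →
      k ≤ (∑ i ∈ Finset.range q, 2 ^ (dist (Z i) (Z (i + 1)) - 1)) * (n - 1)) ∧
    (∀ g, 1 ≤ g → Gap k L g ∨ NoPath d k L g → g * k ≤ 2 ^ (g - 1) * (d * (n - 1))) ∧
    (Gap k L 2 ∨ NoPath d k L 2 ∨ Exchange k L ∨ StronglyStable k L ∨ Threshold d k L → k ≤ d * (n - 1)) := by
  refine ⟨?_, ?_, ?_⟩
  · intro q Z hZ h0 hq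
    choose! l hl using hZ
    have h1 := chain_bound h Z l q hl
    have h2 : l 0 = 0 := by
      by_contra hne
      exact Finset.disjoint_left.1 (h.disj _ _ (hl 0 (Nat.zero_le _)).1 (Nat.zero_le _) hne)
        (hl 0 (Nat.zero_le _)).2 h0
    have h3 : l q = k := by
      by_contra hne
      exact Finset.disjoint_left.1 (h.disj _ _ (hl q le_rfl).1 le_rfl hne) (hl q le_rfl).2 hq
    rw [h2, h3, Nat.zero_add] at h1
    exact h1
  · rintro g hg (h1 | h1)
    · exact gap_bound h hg h1
    · exact gap_bound h hg (gap_nopath h h1)
  · rintro (h1 | h1 | h1 | h1 | h1)
    · exact gap_two h h1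
    · exact gap_two h (gap_nopath h h1)
    · exact gap_two h (gap_exchange h h1)
    · exact gap_two h (gap_stable h h1)
    · exact gap_two h (gap_threshold h h1)

end Pool.Agent.Results.MP_51ebd4_co.BoundedGaps
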