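import Pool.Agent.Lib.MP_51ebd4_co.Clique

/-!
# Hähnle's bound for sets without five elements pairwise together in facets

Let `M` be a connected layer multicomplex of rank `d` on `[n]` whose facets are sets. If no five elements
are pairwise contained in common facets (for example, if the graph of `M` is planar), then the length
of `M` is at most `d (n-1)`. The same holds if no `d + 2` elements are pairwise contained in common facets
and any two facets `X`, `Y` with `|X ∖ Y| > 3` have a facet strictly between them.

More generally, let `ρ_J ≥ 1` be real numbers with `(2 - ρ_J) (1 + ρ_J + … + ρ_J^J) ≤ 1`, for example the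
`(J+1)`-bonacci constants `1`, `1.618…`, `1.839…`, …, or `2`. If no `d + m + 1` elements are pairwise contained in
common facets, then the length is less than `ρ_m ρ_(m+1) ⋯ ρ_(m+d-2) (n-1)`.

Proof. Let `x` be active in the layers from `s` to `e` (relative to `S`); these layers cost `c |P_x|`, with
`P_x` the set of the elements active with `x` there, by induction on the rank. Let `U` be the set of the
neighbours of the last chosen element which are still active; it contains no clique of `J + 2`
elements. Let `x` be the element of `U` which is active longest. If `P_x ∩ U` is small, choose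
`x`; then no element of `U` is used again. If it is large, replace `U` by `P_x ∩ U`, which contains no
clique of `J + 1` elements, and count the rest of `U` as new. On average each element is used at most `ρ_J`
times.
-/

set_option autoImplicit false

namespace Pool.Agent.Results.MP_51ebd4_co.NoFiveClique

open Pool.Agent.Lib.MP_51ebd4_co

/-- Let `L 0, …, L k` be the layers of a connected layer multicomplex of rank `d` on `[n]` whose facets are
sets. If no five elements are pairwise contained in common facets, or no `d + 2` elements are and the gaps are
at most three, then `k ≤ d (n-1)`. If no `d + m + 1` elements are, then `k + 1 ≤ ρ_m ⋯ ρ_(m+d-2) (n-1)`. -/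
theorem result (n d k : ℕ) (L : ℕ → Finset (Multiset (Fin n))) (h : IsCLM n d k L)
    (hset : ∀ F, Facet k L F → F.Nodup) :
    (NoClique k L 5 ∨ NoClique k L (d + 2) ∧ Gap k L 3 → k ≤ d * (n - 1)) ∧
    (2 ≤ d → ∀ (m : ℕ) (ρ : ℕ → ℝ), (∀ J, 1 ≤ ρ J ∧ (2 - ρ J) * ∑ i ∈ Finset.range (J + 1), ρ J ^ i ≤ 1) →
      NoClique k L (d + m + 1) → ((k : ℝ) + 1) ≤ (∏ i ∈ Finset.range (d - 1), ρ (m + i)) * ((n : ℝ) - 1)) :=
  ⟨fun hc => hc.elim (clique_five h hset) fun hc => clique_gap h hset hc.1 hc.2,
    fun hd _ ρ hρ hcl => clique_total h hset hcl ρ hρ hd⟩

end Pool.Agent.Results.MP_51ebd4_co.NoFiveClique
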