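import Pool.Agent.Lib.MP_51ebd4_co.Tri

/-!
# Hähnle's bound in ranks three and four for triangle-free links

Let `M` be a connected layer multicomplex of rank `d ≥ 2` on `[n]` such that for every multiset `S` of
size `d - 2` the link of `S` is a graph without loops and triangles. Equivalently, the facets are
sets and no set of size `d + 1` contains three facets; for example, the facets are transversals of a
partition of `[n]` into `d` parts. Then the length of `M` is at most `2^(d-2) (n-2)`. So Hähnle's bound
`d (n-1)` holds for `d ≤ 4`. It also holds for every `d` if any two facets `X`, `Y` with
`|X ∖ Y| > 4` have a facet strictly between them.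

Proof. In rank two, start with an element active in the first layer. When the last element `x` is
no longer active, take the neighbour of `x` which is active for the longest time (any element, if no
neighbour of `x` is active any more). Each element is a neighbour of at most one of the chosen
elements: the neighbours of `x` are not active when the next chosen element is not active any more,
and are not neighbours of it. The first chosen element is never counted. So the number of layers is
at most `N - 1`, `N` the number of elements. The higher ranks follow by induction (with the element
which is active for the longest time each element is counted twice).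
-/

set_option autoImplicit false

namespace Pool.Agent.Results.MP_51ebd4_co.TriangleFreeLinks

open Pool.Agent.Lib.MP_51ebd4_co

/-- Let `L 0, …, L k` be the layers of a connected layer multicomplex of rank `d` on `[n]` whose links of
multisets of size `d - 2` are triangle-free graphs. Then `k ≤ 2^(d-2) (n-2)` for `d ≥ 2`. Hähnle's bound
`k ≤ d (n-1)` holds if `d ≤ 4`, and for all `d` if the gaps are at most four. -/
theorem result (n d k : ℕ) (L : ℕ → Finset (Multiset (Fin n))) (h : IsCLM n d k L) (ht : TriFree d k L) :
    (2 ≤ d → k ≤ 2 ^ (d - 2) * (n - 2)) ∧ (d ≤ 4 ∨ Gap k L 4 → k ≤ d * (n - 1)) := by
  refine ⟨tri_total h ht, ?_⟩
  rintro (hd | hg)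
  · exact tri_gap h ht (gap_four h hd)
  · exact tri_gap h ht hg

end Pool.Agent.Results.MP_51ebd4_co.TriangleFreeLinks
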